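import Pool.Agent.N589.LL2.St
import Pool.Agent.N589.LL.Aut

/-!
The definitions of `Pool.Agent.N589.LL2.St` agree with those of `Pool.Agent.N589.LL.Aut`.
-/

set_option smartUnfolding false

noncomputable section

namespace N589S

open N589LL (Goal Predicts)

/-- conversion of irreducible representations -/
def ofOld {G : Type} [Group G] [TopologicalSpace G] (π : N589LL.IrrRep G) : IrrRep G where
  E := π.E
  ρ := π.ρ
  irr := π.irr
  smooth := π.smooth

/-- conversion of irreducible representations -/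
def toOld {G : Type} [Group G] [TopologicalSpace G] (π : IrrRep G) : N589LL.IrrRep G where
  E := π.E
  ρ := π.ρ
  irr := π.irr
  smooth := π.smooth

/-- conversion for `GL_2(A)` -/
def oGA (π : N589LL.IrrRep N589LL.GA) : IrrRep GA := ofOld π

/-- conversion for `GL_2(K_v)` -/
def oGv (v : Place) (π : N589LL.IrrRep (N589LL.Gv v)) : IrrRep (Gv v) := ofOld π

/-- conversion for `GL_2(K_v)` -/
def tGv (v : Place) (π : IrrRep (Gv v)) : N589LL.IrrRep (N589LL.Gv v) := toOld (G := Gv v) π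

lemma sing_eq (v : Place) (g : Gv v) : sing v g = N589LL.sing v g := by
  classical
  refine Subtype.ext (funext fun w => ?_)
  by_cases h : w = v
  · subst h
    exact (Pi.mulSingle_eq_same (M := Gv) w g).trans
      (Pi.mulSingle_eq_same (M := N589LL.Gv) w g).symm
  · exact (Pi.mulSingle_eq_of_ne (M := Gv) h g).trans
      (Pi.mulSingle_eq_of_ne (M := N589LL.Gv) h g).symm

lemma singI_eq (v : Place) (g : Mv v) : singI v g = N589LL.singI v g := by
  classical
  refine Subtype.ext (funext fun w => ?_)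
  by_cases h : w = v
  · subst h
    exact (Pi.mulSingle_eq_same (M := Mv) w g).trans
      (Pi.mulSingle_eq_same (M := fun v => (N589LL.Kv v)ˣ) w g).symm
  · exact (Pi.mulSingle_eq_of_ne (M := Mv) h g).trans
      (Pi.mulSingle_eq_of_ne (M := fun v => (N589LL.Kv v)ˣ) h g).symm

lemma rt_sing (v : Place) : ((Rt GA).comp (sing v) : Representation ℂ (Gv v) (GA → ℂ)) =
    (N589LL.Rt N589LL.GA).comp (N589LL.sing v) := by
  refine MonoidHom.ext fun g => ?_
  exact congrArg (fun h : GA => Rt GA h) (sing_eq v g)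

lemma comp_iff (π : N589LL.IrrRep N589LL.GA) (v : Place) (τ : IrrRep (Gv v)) :
    IsComp (oGA π) v τ ↔ N589LL.IsComp π v (tGv v τ) := by
  constructor
  · rintro ⟨j, hj, h⟩
    exact ⟨j, hj, fun g x => (h g x).trans (congrArg (fun t : GA => π.ρ t (j x)) (sing_eq v g))⟩
  · rintro ⟨j, hj, h⟩
    exact ⟨j, hj, fun g x => (h g x).trans
      (congrArg (fun t : GA => π.ρ t (j x)) (sing_eq v g).symm)⟩

lemma unram_iff (v : Place) (τ : IrrRep (Gv v)) :
    IsUnram τ ↔ N589LL.IsUnram (tGv v τ) := Iff.rfl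

lemma autForm (f : GA → ℂ) (h : N589LL.IsAutForm f) : IsAutForm f :=
  ⟨h.left_inv, h.smooth, by
    obtain ⟨v, hv⟩ := h.admissible
    refine ⟨v, ?_⟩
    rw [rt_sing v]
    exact hv⟩

lemma cuspidal (f : GA → ℂ) (h : N589LL.IsCuspidal f) : IsCuspidal f := h

lemma quotient_of {P Q : (GA → ℂ) → Prop} (hPQ : ∀ f, P f → Q f) (π : N589LL.IrrRep N589LL.GA)
    (h : N589LL.IsQuotientOfSpaceOf P π) : IsQuotientOfSpaceOf Q (oGA π) := by
  obtain ⟨V, hV, hP, p, hp, h⟩ := h
  refine ⟨V, fun f hf => hPQ f (hP f hf), hV, p, hp, fun g x y hxy => ?_⟩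
  have : y = ⟨Rt GA g x.1, hV g x.1 x.2⟩ := Subtype.ext hxy
  rw [this]
  exact h g x

lemma autRep (π : N589LL.IrrRep N589LL.GA) (h : N589LL.IsAutRep π) : IsAutRep (oGA π) :=
  quotient_of autForm π h

lemma cuspRep (π : N589LL.IrrRep N589LL.GA) (h : N589LL.IsCuspRep π) : IsCuspRep (oGA π) :=
  quotient_of (fun f hf => ⟨autForm f hf.1, cuspidal f hf.2⟩) π h

/-- conversion of Hecke characters -/
def oHecke (c : N589LL.HeckeChar) : HeckeChar where
  χ := c.χ
  continuous := c.continuous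
  trivial := c.trivial
  σ := c.σ
  norm_eq := fun v x => by
    rw [singI_eq v x]
    exact c.norm_eq v x

lemma oHecke_at (c : N589LL.HeckeChar) (v : Place) :
    (oHecke c).at v = c.χ.comp (N589LL.singI v) := by
  refine MonoidHom.ext fun x => ?_
  exact congrArg (fun y : Idele => c.χ y) (singI_eq v x)

lemma open_conj (v : Place) (g : N589LL.Gv v) (U : Subgroup (N589LL.Gv v))
    (hU : IsOpen (U : Set (N589LL.Gv v))) :
    IsOpen ((U.comap (MulAut.conj g⁻¹).toMonoidHom : Subgroup (N589LL.Gv v)) :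
      Set (N589LL.Gv v)) := by
  have hc : Continuous fun u : N589LL.Gv v => g⁻¹ * u * g :=
    (continuous_const.mul continuous_id).mul continuous_const
  have h2 : ((U.comap (MulAut.conj g⁻¹).toMonoidHom : Subgroup (N589LL.Gv v)) :
      Set (N589LL.Gv v)) = (fun u : N589LL.Gv v => g⁻¹ * u * g) ⁻¹' (U : Set (N589LL.Gv v)) := by
    ext u
    simp
  rw [h2]
  exact hU.preimage hc

lemma inPS_translate (v : Place) (N : (N589LL.Kv v)ˣ → ℝ) (μ₁ μ₂ : (N589LL.Kv v)ˣ →* ℂˣ)
    (g : N589LL.Gv v) (φ : N589LL.Gv v → ℂ) (h : InPS (F := N589LL.Kv v) N μ₁ μ₂ φ) :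
    InPS (F := N589LL.Kv v) N μ₁ μ₂ (fun x => φ (x * g)) := by
  obtain ⟨⟨U, hU, h1⟩, h2⟩ := h
  refine ⟨⟨U.comap (MulAut.conj g⁻¹).toMonoidHom, open_conj v g U hU, fun u hu x => ?_⟩,
    fun a d b x => ?_⟩
  · have hu' : g⁻¹ * u * g ∈ U := by
      simpa [Subgroup.mem_comap, MulAut.conj_apply] using hu
    have := h1 _ hu' (x * g)
    have e : x * g * (g⁻¹ * u * g) = x * u * g := by group
    rw [e] at this
    exact this
  · have := h2 a d b (x * g)
    rw [← mul_assoc] at this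
    exact this

lemma quotPS (v : Place) (μ₁ μ₂ : (N589LL.Kv v)ˣ →* ℂˣ) (τ : N589LL.IrrRep (N589LL.Gv v))
    (h : N589LL.IsQuotPS μ₁ μ₂ τ) :
    IsQuotPS (F := Kv v) (nrm v) μ₁ μ₂ (oGv v τ).ρ := by
  obtain ⟨p, hp, h⟩ := h
  refine ⟨?_, p, hp, fun g x y hxy => ?_⟩
  · intro g φ hφ
    exact inPS_translate v (nrm v) μ₁ μ₂ g φ hφ
  · exact h g x y fun z => congrFun hxy z

lemma isobaric (P : N589LL.IrrRep N589LL.GA) (h : N589LL.IsIsobaric P) : IsIsobaric (oGA P) := by
  obtain ⟨h1, h2⟩ := h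
  refine ⟨autRep P h1, ?_⟩
  rcases h2 with h2 | ⟨c₁, c₂, hc, h2⟩
  · exact Or.inl (cuspRep P h2)
  · refine Or.inr ⟨oHecke c₁, oHecke c₂, hc, fun v τ hτ => ?_⟩
    have h3 := quotPS v _ _ (tGv v τ) (h2 v (tGv v τ) ((comp_iff P v τ).mp hτ))
    rw [oHecke_at, oHecke_at]
    exact h3

lemma lifting (π P : N589LL.IrrRep N589LL.GA) (h : N589LL.IsLifting π P) :
    IsLifting (oGA π) (oGA P) :=
  ⟨isobaric P h.1, fun v τ hu hc => (comp_iff P v τ).mpr
    (h.2 v (tGv v τ) ((unram_iff v τ).mp hu) ((comp_iff π v τ).mp hc))⟩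

/-- The final statement. -/
theorem final (hG : N589LL.Goal) : ¬ ∃ l : IrrRep (Gv infty) → IrrRep (Gv infty),
    ∀ π P : IrrRep GA, IsAutRep π → IsLifting π P →
      ∀ τ : IrrRep (Gv infty), IsComp π infty τ → IsComp P infty (l τ) := by
  rintro ⟨l, hl⟩
  refine hG ⟨fun τ => tGv infty (l (oGv infty τ)), fun π P h1 h2 τ h3 => ?_⟩
  exact (comp_iff P infty (l (oGv infty τ))).mp
    (hl (oGA π) (oGA P) (autRep π h1) (lifting π P h2) (oGv infty τ)
      ((comp_iff π infty (oGv infty τ)).mpr h3))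

end N589S
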