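import Mathlib

/-!
# Definitions for MP_5ae62c_nt (local liftings compatible with global liftings)

Global field `K = F_2(t)`, all its places, the completions `K_v`, the adele ring, the group
`GL_2(A_K)`, automorphic forms and representations (Borel and Jacquet), cuspidal and isobaric
automorphic representations of `GL_2`, local components, global liftings for the identity
representation `ρ : GL_2(ℂ) → GL_2(ℂ)`.
-/

open scoped WithZero MatrixGroups
open IsDedekindDomain RestrictedProduct

noncomputable section

namespace N589S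

/-! ## Representations of groups -/

section rep

variable {G : Type} [Group G] {E : Type} [AddCommGroup E] [Module ℂ E]

/-- A representation is irreducible: nonzero, and the only invariant subspaces are `0` and
everything. -/
def Irred (ρ : Representation ℂ G E) : Prop :=
  Nontrivial E ∧ ∀ W : Submodule ℂ E, (∀ g, ∀ x ∈ W, ρ g x ∈ W) → W = ⊥ ∨ W = ⊤

/-- The vectors fixed by a subgroup. -/
def fixedBy (ρ : Representation ℂ G E) (H : Subgroup G) : Submodule ℂ E where
  carrier := {x | ∀ h ∈ H, ρ h x = x}
  zero_mem' := by intro h _; simp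
  add_mem' := by intro a b ha hb h hh; rw [map_add, ha h hh, hb h hh]
  smul_mem' := by intro c a ha h hh; rw [map_smul, ha h hh]

/-- The subrepresentation generated by a vector. -/
def cyc (ρ : Representation ℂ G E) (x : E) : Submodule ℂ E :=
  Submodule.span ℂ (Set.range fun g => ρ g x)

/-- A representation of a topological group is smooth: the stabiliser of every vector is open. -/
def Smooth [TopologicalSpace G] (ρ : Representation ℂ G E) : Prop :=
  ∀ x, ∃ U : Subgroup G, IsOpen (U : Set G) ∧ x ∈ fixedBy ρ U

/-- The vector `x` is smooth and the subrepresentation generated by `x` is admissible: for every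
open subgroup `H`, its space of `H`-fixed vectors is finite-dimensional. -/
def AdmVec [TopologicalSpace G] (ρ : Representation ℂ G E) (x : E) : Prop :=
  (∃ U : Subgroup G, IsOpen (U : Set G) ∧ x ∈ fixedBy ρ U) ∧
  ∀ H : Subgroup G, IsOpen (H : Set G) → FiniteDimensional ℂ ↥(cyc ρ x ⊓ fixedBy ρ H)

/-- Right translation by `g` on functions on `G`: `(g f)(x) = f (x g)`. -/
def rtr (g : G) : (G → ℂ) →ₗ[ℂ] (G → ℂ) where
  toFun f x := f (x * g)
  map_add' _ _ := rfl
  map_smul' _ _ := rfl

/-- The representation of a group `G` on all functions `G → ℂ` by right translation,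
`(g f)(x) = f (x g)`. -/
def Rt (G : Type) [Group G] : Representation ℂ G (G → ℂ) where
  toFun := rtr
  map_one' := LinearMap.ext fun f => funext fun x => congrArg f (mul_one x)
  map_mul' a b := LinearMap.ext fun f => funext fun x => congrArg f (mul_assoc x a b).symm

/-- The representation `π` of `G` is isomorphic to a quotient of the subrepresentation `V` of the
representation `σ` of `G`: there is a surjective equivariant linear map `p : V → π`. -/
def IsQuotientOf {M : Type} [AddCommGroup M] [Module ℂ M] (σ : Representation ℂ G M)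
    (V : Submodule ℂ M) (π : Representation ℂ G E) : Prop :=
  (∀ g, ∀ x ∈ V, σ g x ∈ V) ∧ ∃ p : V →ₗ[ℂ] E, Function.Surjective p ∧
    ∀ (g : G) (x y : V), y.1 = σ g x.1 → p y = π g (p x)

/-- The representation `τ` of `H` occurs in the restriction to `H` of the representation `π`
of `G`, where `s : H → G` is a homomorphism. -/
def OccursIn {H : Type} [Group H] (s : H →* G) {F : Type} [AddCommGroup F] [Module ℂ F]
    (τ : Representation ℂ H F) (π : Representation ℂ G E) : Prop :=
  ∃ j : F →ₗ[ℂ] E, Function.Injective j ∧ ∀ g x, j (τ g x) = π (s g) (j x)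

/-- The representation `τ` has a nonzero vector fixed by the subgroup `H`. -/
def HasFixed (τ : Representation ℂ G E) (H : Subgroup G) : Prop :=
  ∃ x, x ≠ 0 ∧ x ∈ fixedBy τ H

end rep

/-- Irreducible smooth complex representations of a topological group. (Isomorphic representations
are not identified.) -/
structure IrrRep (G : Type) [Group G] [TopologicalSpace G] where
  /-- the space -/
  E : Type
  [acg : AddCommGroup E]
  [mod : Module ℂ E]
  /-- the action -/
  ρ : Representation ℂ G E
  irr : Irred ρ
  smooth : Smooth ρ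

attribute [instance] IrrRep.acg IrrRep.mod

/-! ## `GL_2` over a field -/

section GL2

/-- For a field `F` with a valuation `v`: the subgroup `GL_2(O)` of `GL_2(F)`, `O` the valuation ring
(matrices `g` such that `g` and `g⁻¹` have entries in `O`). -/
def glInt {F : Type} [Field F] (v : Valuation F ℤᵐ⁰) : Subgroup (GL (Fin 2) F) where
  carrier := {g | (∀ i j, v (g.val i j) ≤ 1) ∧ (∀ i j, v (g⁻¹.val i j) ≤ 1)}
  mul_mem' := by
    rintro a b ⟨ha, ha'⟩ ⟨hb, hb'⟩
    refine ⟨fun i j => ?_, fun i j => ?_⟩
    · rw [Units.val_mul, Matrix.mul_apply]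
      exact Subring.sum_mem v.integer fun k _ => Subring.mul_mem v.integer (ha i k) (hb k j)
    · rw [mul_inv_rev, Units.val_mul, Matrix.mul_apply]
      exact Subring.sum_mem v.integer fun k _ => Subring.mul_mem v.integer (hb' i k) (ha' k j)
  one_mem' := by
    constructor <;> intro i j
    · rw [Units.val_one, Matrix.one_apply]; split_ifs <;> simp
    · rw [inv_one, Units.val_one, Matrix.one_apply]; split_ifs <;> simp
  inv_mem' := by
    rintro a ⟨ha, ha'⟩
    exact ⟨ha', by simpa using ha⟩

/-- The units `O^×` of the valuation ring, as a subgroup of `F^×`. -/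
def unInt {F : Type} [Field F] (v : Valuation F ℤᵐ⁰) : Subgroup Fˣ where
  carrier := {x | v (x : F) = 1}
  mul_mem' := by
    intro a b ha hb
    simp only [Set.mem_ofPred_eq, Units.val_mul, map_mul] at *
    rw [ha, hb, one_mul]
  one_mem' := by simp
  inv_mem' := by
    intro a ha
    simp only [Set.mem_ofPred_eq, Units.val_inv_eq_inv_val, map_inv₀] at *
    rw [ha, inv_one]

/-- The unipotent matrix `(1, x; 0, 1)`. -/
def upr {R : Type} [CommRing R] (x : R) : GL (Fin 2) R where
  val := !![1, x; 0, 1]
  inv := !![1, -x; 0, 1]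
  val_inv := by simp [Matrix.one_fin_two]
  inv_val := by simp [Matrix.one_fin_two]

/-- The upper triangular matrix `(a, b; 0, d)`. -/
def bor {R : Type} [CommRing R] (a d : Rˣ) (b : R) : GL (Fin 2) R where
  val := !![(a : R), b; 0, (d : R)]
  inv := !![(↑a⁻¹ : R), -(↑a⁻¹ : R) * b * (↑d⁻¹ : R); 0, (↑d⁻¹ : R)]
  val_inv := by
    ext i j; fin_cases i <;> fin_cases j <;> simp [Matrix.mul_apply, Fin.sum_univ_two, mul_assoc]
  inv_val := by
    ext i j; fin_cases i <;> fin_cases j <;> simp [Matrix.mul_apply, Fin.sum_univ_two, mul_assoc]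

variable {F : Type} [Field F] [TopologicalSpace F]

/-- The function `φ` on `GL_2(F)` lies in the (normalised) principal series `Ind(μ₁, μ₂)`: it is
right-invariant under an open subgroup, and
`φ((a, b; 0, d) g) = μ₁(a) μ₂(d) |a/d|^{1/2} φ(g)`. Here `N` is the absolute value of `F`. -/
def InPS (N : Fˣ → ℝ) (μ₁ μ₂ : Fˣ →* ℂˣ) (φ : GL (Fin 2) F → ℂ) : Prop :=
  (∃ U : Subgroup (GL (Fin 2) F), IsOpen (U : Set (GL (Fin 2) F)) ∧
      ∀ u ∈ U, ∀ g, φ (g * u) = φ g) ∧
    ∀ (a d : Fˣ) (b : F) (g : GL (Fin 2) F),
      φ (bor a d b * g) = μ₁ a * μ₂ d * ((N a / N d) ^ (1 / 2 : ℝ) : ℝ) * φ g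

/-- The (normalised) principal series `Ind(μ₁, μ₂)` of `GL_2(F)`. -/
def PS (N : Fˣ → ℝ) (μ₁ μ₂ : Fˣ →* ℂˣ) : Submodule ℂ (GL (Fin 2) F → ℂ) where
  carrier := {φ | InPS N μ₁ μ₂ φ}
  zero_mem' := ⟨⟨⊤, isOpen_univ, fun _ _ _ => rfl⟩, fun _ _ _ _ => by simp⟩
  add_mem' := by
    rintro x y ⟨⟨U, hU, hx⟩, hx'⟩ ⟨⟨V, hV, hy⟩, hy'⟩
    refine ⟨⟨U ⊓ V, hU.inter hV, fun u hu g => ?_⟩, fun a d b g => ?_⟩
    · rw [Pi.add_apply, Pi.add_apply, hx u hu.1, hy u hu.2]
    · rw [Pi.add_apply, Pi.add_apply, hx', hy', mul_add]
  smul_mem' := by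
    rintro c x ⟨⟨U, hU, hx⟩, hx'⟩
    refine ⟨⟨U, hU, fun u hu g => ?_⟩, fun a d b g => ?_⟩
    · rw [Pi.smul_apply, Pi.smul_apply, hx u hu]
    · rw [Pi.smul_apply, Pi.smul_apply, hx', smul_eq_mul, smul_eq_mul]; ring

/-- The representation `τ` of `GL_2(F)` is isomorphic to a quotient of the principal series
`Ind(μ₁, μ₂)`, on which `GL_2(F)` acts by right translation. -/
def IsQuotPS (N : Fˣ → ℝ) (μ₁ μ₂ : Fˣ →* ℂˣ) {E : Type} [AddCommGroup E] [Module ℂ E]
    (τ : Representation ℂ (GL (Fin 2) F) E) : Prop :=
  IsQuotientOf (Rt (GL (Fin 2) F)) (PS N μ₁ μ₂) τ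

end GL2

/-! ## The global field `F_2(t)`, its places and completions -/

/-- The global field `K = F_2(t)`. -/
def K : Type := RatFunc (ZMod 2)

instance instFieldK : Field K := (inferInstance : Field (RatFunc (ZMod 2)))

/-- The places of `K = F_2(t)`: `none` is the place `∞` (degree), and `some v` is the place of the
nonzero prime ideal `v` of `F_2[t]`. (Every nontrivial valuation of `K` is equivalent to one of
them: `Mathlib.NumberTheory.RatFunc.Ostrowski`.) -/
def Place : Type := Option (HeightOneSpectrum (Polynomial (ZMod 2)))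

/-- The place `∞` of `K = F_2(t)`. -/
def infty : Place := none

open Classical in
/-- The (multiplicatively written) normalized discrete valuation of `K` at a place. -/
def pv : Place → Valuation K ℤᵐ⁰
  | none => RatFunc.inftyValuation (ZMod 2)
  | some v => v.valuation (RatFunc (ZMod 2))

/-- The completion `K_v`. -/
def Kv (v : Place) : Type := (pv v).Completion

instance instFieldKv (v : Place) : Field (Kv v) := (inferInstance : Field (pv v).Completion)

instance instTopKv (v : Place) : TopologicalSpace (Kv v) :=
  (inferInstance : TopologicalSpace (pv v).Completion)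

/-- The embedding `K → K_v`. -/
def incl (v : Place) : K →+* Kv v :=
  (UniformSpace.Completion.coeRingHom).comp (WithVal.equiv (pv v)).symm.toRingHom

/-- The valuation of `K_v` (with values in `ℤᵐ⁰`, normalised). -/
def val (v : Place) : Valuation (Kv v) ℤᵐ⁰ :=
  (Valued.v : Valuation (pv v).Completion ℤᵐ⁰)

lemma val_incl (v : Place) (x : K) : val v (incl v x) = pv v x :=
  Valued.valuedCompletion_apply (WithVal.toVal (pv v) x)

/-- The number of elements of the residue field of the place `v`. -/
def qv : Place → ℕ
  | none => 2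
  | some v => Nat.card (Polynomial (ZMod 2) ⧸ v.asIdeal)

/-- The ring of integers `O_v` of `K_v`. -/
def Ov (v : Place) : Subring (Kv v) := (val v).integer

/-- The multiplicative group `K_v^×`. -/
def Mv (v : Place) : Type := (Kv v)ˣ

instance instGroupMv (v : Place) : CommGroup (Mv v) := (inferInstance : CommGroup (Kv v)ˣ)

instance instTopMv (v : Place) : TopologicalSpace (Mv v) :=
  (inferInstance : TopologicalSpace (Kv v)ˣ)

/-- An element of `K_v^×`, as an element of `K_v`. -/
def Mv.toK {v : Place} (x : Mv v) : Kv v := Units.val x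

/-- The normalised absolute value on `K_v^×`. -/
def nrm (v : Place) (x : Mv v) : ℝ := (qv v : ℝ) ^ (WithZero.log (val v x.toK))

/-- The group of units `O_v^×`, as a subgroup of `K_v^×`. -/
def Uv (v : Place) : Subgroup (Mv v) := unInt (val v)

/-! ## `GL_2` over the completions and over the adeles -/

/-- The group `GL_2(K_v)`. -/
def Gv (v : Place) : Type := GL (Fin 2) (Kv v)

instance instGroupGv (v : Place) : Group (Gv v) := (inferInstance : Group (GL (Fin 2) (Kv v)))

/-- The topology of `GL_2(K_v)` (units of the topological ring of matrices). -/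
instance instTopGv (v : Place) : TopologicalSpace (Gv v) :=
  (inferInstance : TopologicalSpace (GL (Fin 2) (Kv v)))

/-- The maximal compact subgroup `GL_2(O_v)` of `GL_2(K_v)`. -/
def Cv (v : Place) : Subgroup (Gv v) := glInt (val v)

/-- The adelic group `GL_2(A_K)`: the restricted product of the groups `GL_2(K_v)` with respect to
the subgroups `GL_2(O_v)`, over all places `v`. -/
def GA : Type := Πʳ v : Place, [Gv v, Cv v]

instance instGroupGA : Group GA := (inferInstance : Group Πʳ v : Place, [Gv v, Cv v])

instance instTopGA : TopologicalSpace GA :=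
  (inferInstance : TopologicalSpace Πʳ v : Place, [Gv v, Cv v])

/-- The adele ring `A_K`: the restricted product of the fields `K_v` with respect to `O_v`. -/
def Adele : Type := Πʳ v : Place, [Kv v, Ov v]

instance instRingAdele : CommRing Adele := (inferInstance : CommRing Πʳ v : Place, [Kv v, Ov v])

instance instTopAdele : TopologicalSpace Adele :=
  (inferInstance : TopologicalSpace Πʳ v : Place, [Kv v, Ov v])

/-- The idele group: the restricted product of the groups `K_v^×` with respect to `O_v^×`. -/
def Idele : Type := Πʳ v : Place, [Mv v, Uv v]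

instance instGroupIdele : CommGroup Idele :=
  (inferInstance : CommGroup Πʳ v : Place, [Mv v, Uv v])

instance instTopIdele : TopologicalSpace Idele :=
  (inferInstance : TopologicalSpace Πʳ v : Place, [Mv v, Uv v])

/-- The component of an idele at a place, as an element of `K_v`. -/
def Idele.at (x : Idele) (v : Place) : Kv v := Mv.toK (x.1 v)

/-- The set of places where an element of `K` is not integral is finite. -/
lemma finite_not_integral (x : K) : {v : Place | incl v x ∉ Ov v}.Finite := by
  have h := HeightOneSpectrum.Support.finite (Polynomial (ZMod 2)) (K := RatFunc (ZMod 2)) x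
  refine ((h.image some).union (Set.finite_singleton none)).subset ?_
  rintro (_ | v) hv
  · exact Or.inr rfl
  · refine Or.inl ⟨v, ?_, rfl⟩
    have hv' : ¬ val (some v) (incl (some v) x) ≤ 1 := hv
    rw [val_incl] at hv'
    have hv2 : ¬ v.valuation (RatFunc (ZMod 2)) x ≤ 1 := hv'
    simpa [HeightOneSpectrum.Support] using hv2

/-- The diagonal map `K → A_K`. -/
def toAdele (x : K) : Adele := ⟨fun v => incl v x, finite_not_integral x⟩

/-- The diagonal embedding `K → A_K`. -/
def diagK : K →+* Adele where
  toFun := toAdele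
  map_one' := Subtype.ext (funext fun v => map_one (incl v))
  map_mul' x y := Subtype.ext (funext fun v => map_mul (incl v) x y)
  map_zero' := Subtype.ext (funext fun v => map_zero (incl v))
  map_add' x y := Subtype.ext (funext fun v => map_add (incl v) x y)

/-- The map `GL_2(K) → GL_2(K_v)`. -/
def glIncl (v : Place) : GL (Fin 2) K →* Gv v := Matrix.GeneralLinearGroup.map (incl v)

lemma finite_glIncl (γ : GL (Fin 2) K) : {v : Place | glIncl v γ ∉ Cv v}.Finite := by
  have h : ∀ i j, ({v : Place | incl v (γ.val i j) ∉ Ov v} ∪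
      {v : Place | incl v (γ⁻¹.val i j) ∉ Ov v}).Finite := fun i j =>
    (finite_not_integral _).union (finite_not_integral _)
  refine (Set.finite_iUnion fun i => Set.finite_iUnion fun j => h i j).subset ?_
  intro v hv
  simp only [Set.mem_iUnion]
  by_contra hcon
  push Not at hcon
  apply hv
  refine ⟨fun i j => ?_, fun i j => ?_⟩
  · have := hcon i j
    simp only [Set.mem_union, Set.mem_ofPred_eq, not_or, not_not] at this
    exact this.1
  · have := hcon i j
    simp only [Set.mem_union, Set.mem_ofPred_eq, not_or, not_not] at this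
    have h2 : (glIncl v γ)⁻¹ = glIncl v γ⁻¹ := (map_inv (glIncl v) γ).symm
    have h3 : ((glIncl v γ)⁻¹ : GL (Fin 2) (Kv v)).val i j = incl v (γ⁻¹.val i j) :=
      congrArg (fun g : GL (Fin 2) (Kv v) => g.val i j) h2
    exact (congrArg (fun t => val v t ≤ 1) h3).mpr this.2

/-- The diagonal map `GL_2(K) → GL_2(A_K)`. -/
def toGA (γ : GL (Fin 2) K) : GA := ⟨fun v => glIncl v γ, finite_glIncl γ⟩

/-- The diagonal embedding `GL_2(K) → GL_2(A_K)`. -/
def diag : GL (Fin 2) K →* GA where
  toFun := toGA
  map_one' := Subtype.ext (funext fun v => map_one (glIncl v))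
  map_mul' x y := Subtype.ext (funext fun v => map_mul (glIncl v) x y)

open Classical in
/-- The embedding `GL_2(K_v) → GL_2(A_K)` at the place `v`. -/
def sing (v : Place) : Gv v →* GA where
  toFun := RestrictedProduct.mulSingle Cv v
  map_one' := RestrictedProduct.mulSingle_one ..
  map_mul' _ _ := RestrictedProduct.mulSingle_mul ..

open Classical in
/-- The embedding `K_v^× → A_K^×` at the place `v`. -/
def singI (v : Place) : Mv v →* Idele where
  toFun := RestrictedProduct.mulSingle Uv v
  map_one' := RestrictedProduct.mulSingle_one ..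
  map_mul' _ _ := RestrictedProduct.mulSingle_mul ..

lemma upr_mem (x : Adele) : ∀ᶠ v in Filter.cofinite, (upr (x.1 v) : Gv v) ∈ Cv v := by
  filter_upwards [x.2] with v hv
  refine ⟨fun i j => ?_, fun i j => ?_⟩
  · fin_cases i <;> fin_cases j
    exacts [Subring.one_mem (Ov v), hv, Subring.zero_mem (Ov v), Subring.one_mem (Ov v)]
  · fin_cases i <;> fin_cases j
    exacts [Subring.one_mem (Ov v), Subring.neg_mem (Ov v) hv, Subring.zero_mem (Ov v),
      Subring.one_mem (Ov v)]

/-- The unipotent element `n(x) = (1, x; 0, 1)` of `GL_2(A_K)`, for an adele `x`. -/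
def nA (x : Adele) : GA := ⟨fun v => upr (x.1 v), upr_mem x⟩

/-! ## Automorphic forms and representations -/

/-- Automorphic forms on `GL_2(A_K)`, `K` the function field `F_2(t)` (Borel and Jacquet, Automorphic
forms and automorphic representations, 5.8): functions `f : GL_2(K)\GL_2(A_K) → ℂ`, invariant on the
right under an open subgroup, such that for some place `v` the representation of `GL_2(K_v)` on
the span of the right translates of `f` under `GL_2(K_v)` is admissible. -/
structure IsAutForm (f : GA → ℂ) : Prop where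
  left_inv : ∀ (γ : GL (Fin 2) K) (g : GA), f (diag γ * g) = f g
  smooth : ∃ U : Subgroup GA, IsOpen (U : Set GA) ∧ ∀ u ∈ U, ∀ g, f (g * u) = f g
  admissible : ∃ v : Place, AdmVec ((Rt GA).comp (sing v)) f

/-- The function `f` on `GL_2(K)\GL_2(A_K)` is cuspidal: `∫_{A/K} f(n(x) g) dx = 0` for all `g`.
The function `x ↦ f(n(x) g)` on `A/K` is invariant under an open subgroup `𝔬` of `A`, so that the
integral is (up to a constant) the sum over the finite set `A/(K + 𝔬)`. -/
def IsCuspidal (f : GA → ℂ) : Prop :=
  ∀ (g : GA) (𝔬 : AddSubgroup Adele), IsOpen (𝔬 : Set Adele) →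
    (∀ x, ∀ y ∈ 𝔬, f (nA (x + y) * g) = f (nA x * g)) →
    ∑ᶠ c : Adele ⧸ (𝔬 ⊔ diagK.range.toAddSubgroup), f (nA c.out * g) = 0

/-- `π` is isomorphic to an irreducible quotient of a representation `V` of `GL_2(A_K)`, where `V`
is a space of functions satisfying `P`, with `GL_2(A_K)` acting by right translation. -/
def IsQuotientOfSpaceOf (P : (GA → ℂ) → Prop) (π : IrrRep GA) : Prop :=
  ∃ V : Submodule ℂ (GA → ℂ), (∀ f ∈ V, P f) ∧ IsQuotientOf (Rt GA) V π.ρ

/-- Automorphic representations of `GL_2(A_K)`: the irreducible subquotients `V/W` of the space of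
automorphic forms. -/
def IsAutRep (π : IrrRep GA) : Prop := IsQuotientOfSpaceOf IsAutForm π

/-- Cuspidal automorphic representations of `GL_2(A_K)`. -/
def IsCuspRep (π : IrrRep GA) : Prop :=
  IsQuotientOfSpaceOf (fun f => IsAutForm f ∧ IsCuspidal f) π

/-- The irreducible representation `τ` of `GL_2(K_v)` is the component at `v` of the irreducible
representation `π = ⊗ π_v` of `GL_2(A_K)`: it occurs in the restriction of `π` to `GL_2(K_v)`
(this restriction is a direct sum of copies of `π_v`). -/
def IsComp (π : IrrRep GA) (v : Place) (τ : IrrRep (Gv v)) : Prop := OccursIn (sing v) τ.ρ π.ρ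

/-- `τ` is unramified: it has a nonzero vector fixed by `GL_2(O_v)`. -/
def IsUnram {v : Place} (τ : IrrRep (Gv v)) : Prop := HasFixed τ.ρ (Cv v)

/-! ## Isobaric automorphic representations -/

/-- Hecke quasi-characters: continuous homomorphisms `χ : A_K^× → ℂ^×` trivial on `K^×`, together
with the exponent `σ`, for which `|χ(x)| = |x|^σ`. -/
structure HeckeChar where
  /-- the character -/
  χ : Idele →* ℂˣ
  continuous : Continuous χ
  trivial : ∀ (x : Kˣ) (y : Idele), (∀ v, y.at v = incl v x) → χ y = 1
  /-- the exponent -/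
  σ : ℝ
  norm_eq : ∀ (v : Place) (x : Mv v), ‖(χ (singI v x) : ℂ)‖ = nrm v x ^ σ

/-- The component `χ_v` of a Hecke quasi-character. -/
def HeckeChar.at (c : HeckeChar) (v : Place) : Mv v →* ℂˣ := c.χ.comp (singI v)

/-- Isobaric automorphic representations `Π` of `GL_2(A_K)`: either `Π` is cuspidal, or
`Π = χ₁ ⊞ χ₂` for two Hecke quasi-characters; ordering them such that `σ₁ ≥ σ₂` for the exponents,
`Π_v` is the Langlands quotient of `Ind(χ₁ᵥ, χ₂ᵥ)` (its unique irreducible quotient) for
all `v`. -/
def IsIsobaric (P : IrrRep GA) : Prop :=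
  IsAutRep P ∧ (IsCuspRep P ∨ ∃ c₁ c₂ : HeckeChar, c₂.σ ≤ c₁.σ ∧
    ∀ (v : Place) (τ : IrrRep (Gv v)), IsComp P v τ →
      IsQuotPS (F := Kv v) (nrm v) (c₁.at v) (c₂.at v) τ.ρ)

/-- `P` is a global lifting of the automorphic representation `π` of `GL_2(A_K)`, for the identity
representation `ρ` of the dual group `GL_2(ℂ)` (so that the unramified lifting `l_{ρ,un}` is the
identity): `P` is isobaric and `P_v = π_v` at every place where `π_v` is unramified. -/
def IsLifting (π P : IrrRep GA) : Prop :=
  IsIsobaric P ∧ ∀ (v : Place) (τ : IrrRep (Gv v)), IsUnram τ → IsComp π v τ → IsComp P v τ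

end N589S
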